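import Pool.Agent.helper47.Vis.Rows

set_option autoImplicit false

/-!
# MP_6b3417_co, part II, module P4: an exact trapezoid
-/

namespace Pool.Agent.helper45.Vis

open Pool.Agent.helper47.Vis

/-- Heights of the rows increase. -/
lemma eta_mono {V : Set (ℝ × ℝ)} {J : ℕ} {η : ℕ → ℝ} {n : ℕ → ℕ} {x : ℕ → ℕ → ℝ}
    (hR : Rows V J η n x) : ∀ b a : ℕ, a < b → b ≤ J → η a < η b := by
  intro b
  induction b with
  | zero => intro a ha _; omega
  | succ b ih =>
    intro a ha hb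
    have h1 : η b < η (b + 1) := hR.hη b (by omega)
    rcases Nat.lt_or_ge a b with h | h
    · exact (ih a h (by omega)).trans h1
    · have : a = b := by omega
      subst this; exact h1

/-- Three consecutive rows. -/
lemma rows_shift {V : Set (ℝ × ℝ)} {J : ℕ} {η : ℕ → ℝ} {n : ℕ → ℕ} {x : ℕ → ℕ → ℝ}
    (hR : Rows V J η n x) (i : ℕ) (hi : i + 2 ≤ J) :
    Rows V 2 (fun m => η (i + m)) (fun m => n (i + m)) (fun m => x (i + m)) := by
  refine ⟨?_, ?_, ?_, ?_⟩
  · intro m hm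
    exact hR.hη (i + m) (by omega)
  · intro m hm j k hjk hk
    exact hR.hx (i + m) (by omega) j k hjk hk
  · intro m hm j hj
    exact hR.mem (i + m) (by omega) j hj
  · intro p hp h1 h2
    have e0 : η 0 ≤ η (i + 0) := by
      rcases Nat.eq_zero_or_pos i with h | h
      · subst h; exact le_refl _
      · exact (eta_mono hR (i + 0) 0 (by omega) (by omega)).le
    have eJ : η (i + 2) ≤ η J := by
      rcases Nat.lt_or_ge (i + 2) J with h | h
      · exact (eta_mono hR J (i + 2) h (le_refl _)).le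
      · have : i + 2 = J := by omega
        rw [this]
    obtain ⟨i', hi', j, hj, rfl⟩ := hR.only p hp (e0.trans h1) (le_trans h2 eJ)
    simp only at h1 h2
    have a1 : i ≤ i' := by
      by_contra hc
      push Not at hc
      have := eta_mono hR (i + 0) i' (by omega) (by omega)
      linarith
    have a2 : i' ≤ i + 2 := by
      by_contra hc
      push Not at hc
      have := eta_mono hR i' (i + 2) (by omega) (by omega)
      linarith
    refine ⟨i' - i, by omega, j, ?_, ?_⟩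
    · show j < n (i + (i' - i))
      rw [show i + (i' - i) = i' by omega]; exact hj
    · show (x i' j, η i') = (x (i + (i' - i)) j, η (i + (i' - i)))
      rw [show i + (i' - i) = i' by omega]

/-- Monotonicity of `side` in the endpoints. -/
lemma side_lt {η₀ η₁ a c a' c' h : ℝ} (h01 : η₀ < η₁) (h0 : η₀ ≤ h) (h1 : h ≤ η₁)
    (ha : a < a') (hc : c < c') : side η₀ η₁ a c h < side η₀ η₁ a' c' h := by
  unfold side
  apply div_lt_div_of_pos_right _ (by linarith)
  rcases eq_or_lt_of_le h0 with e | e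
  · subst e
    nlinarith
  · nlinarith [mul_nonneg (sub_nonneg.2 h1) (sub_nonneg.2 ha.le), mul_pos (sub_pos.2 e) (sub_pos.2 hc)]

/-- Lower bound for a crossing point. -/
lemma side_le_cross {η : ℕ → ℝ} {x : ℕ → ℕ → ℝ} {J i j k : ℕ} {a c : ℝ}
    (h01 : η 0 < η J) (h1 : η i < η (i + 1)) (h2 : η (i + 1) < η (i + 2))
    (hj : side (η 0) (η J) a c (η i) ≤ x i j)
    (hk : side (η 0) (η J) a c (η (i + 2)) ≤ x (i + 2) k) :
    side (η 0) (η J) a c (η (i + 1)) ≤ cross η x i j k := by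
  unfold cross
  rw [le_div_iff₀ (by linarith)]
  have e : side (η 0) (η J) a c (η (i + 1)) * (η (i + 2) - η i) =
      (η (i + 2) - η (i + 1)) * side (η 0) (η J) a c (η i) +
      (η (i + 1) - η i) * side (η 0) (η J) a c (η (i + 2)) := by
    unfold side
    have : η J - η 0 ≠ 0 := by linarith
    field_simp
    ring
  rw [e]
  have g1 := mul_le_mul_of_nonneg_left hj (sub_nonneg.2 h2.le)
  have g2 := mul_le_mul_of_nonneg_left hk (sub_nonneg.2 h1.le)
  linarith

/-- Upper bound for a crossing point. -/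
lemma cross_le_side {η : ℕ → ℝ} {x : ℕ → ℕ → ℝ} {J i j k : ℕ} {a c : ℝ}
    (h01 : η 0 < η J) (h1 : η i < η (i + 1)) (h2 : η (i + 1) < η (i + 2))
    (hj : x i j ≤ side (η 0) (η J) a c (η i))
    (hk : x (i + 2) k ≤ side (η 0) (η J) a c (η (i + 2))) :
    cross η x i j k ≤ side (η 0) (η J) a c (η (i + 1)) := by
  unfold cross
  rw [div_le_iff₀ (by linarith)]
  have e : side (η 0) (η J) a c (η (i + 1)) * (η (i + 2) - η i) =
      (η (i + 2) - η (i + 1)) * side (η 0) (η J) a c (η i) +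
      (η (i + 1) - η i) * side (η 0) (η J) a c (η (i + 2)) := by
    unfold side
    have : η J - η 0 ≠ 0 := by linarith
    field_simp
    ring
  rw [e]
  have g1 := mul_le_mul_of_nonneg_left hj (sub_nonneg.2 h2.le)
  have g2 := mul_le_mul_of_nonneg_left hk (sub_nonneg.2 h1.le)
  linarith

/-- Union bound. -/
lemma exists_good (T K : ℕ) (Bad : ℕ → Set ℕ) (D : ℕ → ℤ)
    (hsub : ∀ i < K, Bad i ⊆ {t | t < T})
    (hb : ∀ i < K, ((Bad i).ncard : ℤ) ≤ D i) (hs : ∑ i ∈ Finset.range K, D i < T) :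
    ∃ t < T, ∀ i < K, t ∉ Bad i := by
  classical
  by_contra hcon
  push Not at hcon
  have hfin : ∀ i < K, (Bad i).Finite := fun i hi => (Set.finite_lt_nat T).subset (hsub i hi)
  let f : ℕ → Finset ℕ := fun i => if h : i < K then (hfin i h).toFinset else ∅
  have hcard : ∀ i < K, ((f i).card : ℤ) ≤ D i := by
    intro i hi
    have : (f i).card = (Bad i).ncard := by
      simp only [f, hi, dif_pos]
      rw [Set.ncard_eq_toFinset_card _ (hfin i hi)]
    rw [this]; exact hb i hi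
  have hcov : Finset.range T ⊆ (Finset.range K).biUnion f := by
    intro t ht
    rw [Finset.mem_range] at ht
    obtain ⟨i, hi, hti⟩ := hcon t ht
    rw [Finset.mem_biUnion]
    refine ⟨i, Finset.mem_range.2 hi, ?_⟩
    simp only [f, hi, dif_pos, Set.Finite.mem_toFinset]
    exact hti
  have h1 : T ≤ ((Finset.range K).biUnion f).card := by
    calc T = (Finset.range T).card := (Finset.card_range T).symm
      _ ≤ _ := Finset.card_le_card hcov
  have h2 : ((Finset.range K).biUnion f).card ≤ ∑ i ∈ Finset.range K, (f i).card :=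
    Finset.card_biUnion_le
  have h3 : ((∑ i ∈ Finset.range K, (f i).card : ℕ) : ℤ) ≤ ∑ i ∈ Finset.range K, D i := by
    push_cast
    exact Finset.sum_le_sum fun i hi => hcard i (Finset.mem_range.1 hi)
  have h4 : (T : ℤ) ≤ ((∑ i ∈ Finset.range K, (f i).card : ℕ) : ℤ) := by
    exact_mod_cast h1.trans h2
  linarith

/-- Module P4: an exact trapezoid (the other modules as hypotheses). -/
theorem exists_exact_of
    (psi_count : ∀ (a b T : ℕ) (c : ℤ) (_ : 0 < a) (_ : 0 < b) (F : ℕ → ℕ → ℤ)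
      (_ : ∀ j k, j + 1 < a → k < b → F j k + 1 ≤ F (j + 1) k)
      (_ : ∀ j k, j < a → k + 1 < b → F j k + 1 ≤ F j (k + 1))
      (_ : 0 ≤ F 0 0) (_ : F (a - 1) (b - 1) ≤ 2 * c)
      (l1 r1 l2 r2 : ℕ → ℕ)
      (_ : ∀ t < T, l1 t ≤ r1 t) (_ : ∀ t < T, r1 t < a)
      (_ : ∀ t, t + 1 < T → r1 t < l1 (t + 1))
      (_ : ∀ t < T, l2 t ≤ r2 t) (_ : ∀ t < T, r2 t < b)
      (_ : ∀ t, t + 1 < T → r2 t < l2 (t + 1)),
      (Set.ncard {t : ℕ | t < T ∧ ∃ j k, l1 t ≤ j ∧ j ≤ r1 t ∧ l2 t ≤ k ∧ k ≤ r2 t ∧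
        F j k - j - k ≠ F (l1 t) (l2 t) - l1 t - l2 t} : ℤ) ≤ 2 * c + 2 - a - b)
    (pos_le : ∀ (n : ℕ) (u : ℕ → ℝ) (y : ℝ) (_ : ∀ j k, j < k → k < n → u j < u k),
      pos n u y ≤ 2 * n)
    (pos_odd : ∀ (n : ℕ) (u : ℕ → ℝ) (y : ℝ) (_ : ∀ j k, j < k → k < n → u j < u k) (m : ℕ)
      (_ : pos n u y = 2 * m + 1), m < n ∧ u m = y)
    (row_mono : ∀ (V : Set (ℝ × ℝ)) (_ : K5free V) (η : ℕ → ℝ) (n : ℕ → ℕ) (x : ℕ → ℕ → ℝ)
      (_ : Rows V 2 η n x) (_ : 2 ≤ n 1),
      (∀ j k, j + 1 < n 0 → k < n 2 →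
        pos (n 1) (x 1) (cross η x 0 j k) + 1 ≤ pos (n 1) (x 1) (cross η x 0 (j + 1) k)) ∧
      (∀ j k, j < n 0 → k + 1 < n 2 →
        pos (n 1) (x 1) (cross η x 0 j k) + 1 ≤ pos (n 1) (x 1) (cross η x 0 j (k + 1))))
    (trap_rows : ∀ (J B : ℕ) (_ : 3 ≤ J) (_ : 100 * J ^ 2 ≤ B) (V : Set (ℝ × ℝ))
      (_ : V.Finite) (_ : K5free V) (η : ℕ → ℝ) (n : ℕ → ℕ) (x : ℕ → ℕ → ℝ)
      (_ : Rows V J η n x) (_ : ∀ i, i ≤ J → 1 ≤ n i) (p₀ q₀ p₁ q₁ : ℕ)
      (_ : q₀ < n 0) (_ : q₁ < n J) (_ : p₀ + B ≤ q₀ + 1) (_ : p₁ + B / 4 ≤ q₁ + 1),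
      ∃ l r : ℕ → ℕ, l 0 = p₀ ∧ r 0 = q₀ ∧ l J = p₁ ∧ r J = q₁ ∧ ∀ i, i ≤ J →
        l i + B / 5 ≤ r i ∧ r i < n i ∧ ∀ j, j < n i → ((l i ≤ j ∧ j ≤ r i) ↔
          (side (η 0) (η J) (x 0 p₀) (x J p₁) (η i) ≤ x i j ∧
            x i j ≤ side (η 0) (η J) (x 0 q₀) (x J q₁) (η i))))
    (J B : ℕ) (hJ : 3 ≤ J) (hB : 100 * J ^ 2 ≤ B) (V : Set (ℝ × ℝ))
    (hfin : V.Finite) (hK : K5free V) (η : ℕ → ℝ) (n : ℕ → ℕ) (x : ℕ → ℕ → ℝ)
    (hR : Rows V J η n x) (N : ℕ) (hN : ∀ i, i ≤ J → n i ≤ N ∧ N ≤ 3 * n i)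
    (hsl : 10 * (B : ℤ) * (1 + ∑ i ∈ Finset.range (J - 1),
      (2 * (n (i + 1) : ℤ) + 2 - n i - n (i + 2))) ≤ N) :
    ∃ l r : ℕ → ℕ, ∃ c : ℕ → ℤ, Exact J η n x l r c (B / 5) := by
  classical
  have hB900 : 900 ≤ B := by
    have : 9 ≤ J ^ 2 := by nlinarith
    omega
  -- at least two points in every row
  have hN4 : 4 ≤ N := by
    by_contra hc
    push Not at hc
    have htel : ∀ K : ℕ, ∑ i ∈ Finset.range K, (2 * (n (i + 1) : ℤ) + 2 - n i - n (i + 2)) =
        2 * K + n 1 - n 0 + n K - n (K + 1) := by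
      intro K
      induction K with
      | zero => simp
      | succ K ih => rw [Finset.sum_range_succ, ih]; push_cast; ring
    rw [htel (J - 1), show J - 1 + 1 = J by omega] at hsl
    have u0 := hN 0 (by omega)
    have u1 := hN 1 (by omega)
    have u2 := hN (J - 1) (by omega)
    have u3 := hN J (le_refl _)
    have hpos : (0 : ℤ) ≤ 2 * ((J - 1 : ℕ) : ℤ) + n 1 - n 0 + n (J - 1) - n J := by
      rcases Nat.eq_zero_or_pos N with h | h
      · omega
      · omega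
    have hBp : (900 : ℤ) ≤ B := by exact_mod_cast hB900
    have hN3 : (N : ℤ) < 4 := by exact_mod_cast hc
    nlinarith
  have hn2 : ∀ i, i ≤ J → 2 ≤ n i := fun i hi => by have := (hN i hi).2; omega
  have hn1 : ∀ i, i ≤ J → 1 ≤ n i := fun i hi => by have := hn2 i hi; omega
  have h0J : η 0 < η J := eta_mono hR J 0 (by omega) (le_refl _)
  -- the trapezoids
  set T : ℕ := n 0 / B with hT
  set B' : ℕ := n J / T with hB'
  have hTB : T * B ≤ n 0 := Nat.div_mul_le_self _ _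
  have hTB' : T * B' ≤ n J := by rw [mul_comm]; exact Nat.div_mul_le_self _ _
  -- windows
  have htrap : ∀ t, t < T → ∃ l r : ℕ → ℕ, l 0 = t * B ∧ r 0 = t * B + B - 1 ∧
      l J = t * B' ∧ r J = t * B' + B' - 1 ∧ ∀ i, i ≤ J →
      l i + B / 5 ≤ r i ∧ r i < n i ∧ ∀ j, j < n i → ((l i ≤ j ∧ j ≤ r i) ↔
        (side (η 0) (η J) (x 0 (t * B)) (x J (t * B')) (η i) ≤ x i j ∧
          x i j ≤ side (η 0) (η J) (x 0 (t * B + B - 1)) (x J (t * B' + B' - 1)) (η i))) := by
    intro t ht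
    have hT0 : 0 < T := by omega
    have hB'4 : B / 4 ≤ B' := by
      rw [hB', Nat.le_div_iff_mul_le hT0]
      have h1 : B / 4 * 4 ≤ B := Nat.div_mul_le_self _ _
      have h2 : B / 4 * 4 * T ≤ B * T := Nat.mul_le_mul_right _ h1
      have h3 : n 0 ≤ 3 * n J := (hN 0 (by omega)).1.trans (hN J (le_refl _)).2
      nlinarith
    have hB'pos : 1 ≤ B' := by omega
    have g1 : (t + 1) * B ≤ T * B := Nat.mul_le_mul_right _ ht
    have g2 : (t + 1) * B' ≤ T * B' := Nat.mul_le_mul_right _ ht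
    have g1' : t * B + B ≤ n 0 := by rw [add_mul, one_mul] at g1; omega
    have g2' : t * B' + B' ≤ n J := by rw [add_mul, one_mul] at g2; omega
    exact trap_rows J B hJ hB V hfin hK η n x hR hn1 (t * B) (t * B + B - 1) (t * B')
      (t * B' + B' - 1) (by omega) (by omega) (by omega) (by omega)
  choose! l r hl0 hr0 hlJ hrJ hlr using htrap
  -- positions
  let F : ℕ → ℕ → ℕ → ℤ := fun i j k => (pos (n (i + 1)) (x (i + 1)) (cross η x i j k) : ℤ)
  let D : ℕ → ℤ := fun i => 2 * (n (i + 1) : ℤ) + 2 - n i - n (i + 2)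
  let Bad : ℕ → Set ℕ := fun i => {t : ℕ | t < T ∧ ∃ j k, l t i ≤ j ∧ j ≤ r t i ∧
    l t (i + 2) ≤ k ∧ k ≤ r t (i + 2) ∧
    F i j k - j - k ≠ F i (l t i) (l t (i + 2)) - l t i - l t (i + 2)}
  -- consecutive windows are disjoint
  have hsep : ∀ i, i ≤ J → ∀ t, t + 1 < T → r t i < l (t + 1) i := by
    intro i hi t ht
    by_contra hc
    push Not at hc
    obtain ⟨a1, a2, a3⟩ := hlr t (by omega) i hi
    obtain ⟨b1, b2, b3⟩ := hlr (t + 1) ht i hi
    have c1 := ((a3 (r t i) a2).1 ⟨by omega, le_refl _⟩).2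
    have c2 := ((b3 (l (t + 1) i) (by omega)).1 ⟨le_refl _, by omega⟩).1
    have hxle : x i (l (t + 1) i) ≤ x i (r t i) := by
      rcases Nat.lt_or_ge (l (t + 1) i) (r t i) with h | h
      · exact (hR.hx i hi _ _ h a2).le
      · have : l (t + 1) i = r t i := by omega
        rw [this]
    have g1 : (t + 1 + 1) * B ≤ T * B := Nat.mul_le_mul_right _ ht
    have g2 : (t + 1 + 1) * B' ≤ T * B' := Nat.mul_le_mul_right _ ht
    have hB'pos : 1 ≤ B' := by
      have := hlr 0 (by omega) J (le_refl _)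
      rw [hlJ 0 (by omega), hrJ 0 (by omega)] at this
      omega
    have e1 : (t + 1) * B = t * B + B := by ring
    have e2 : (t + 1) * B' = t * B' + B' := by ring
    have e3 : (t + 1 + 1) * B = t * B + B + B := by ring
    have e4 : (t + 1 + 1) * B' = t * B' + B' + B' := by ring
    have hs : side (η 0) (η J) (x 0 (t * B + B - 1)) (x J (t * B' + B' - 1)) (η i) <
        side (η 0) (η J) (x 0 ((t + 1) * B)) (x J ((t + 1) * B')) (η i) := by
      apply side_lt h0J
      · rcases Nat.eq_zero_or_pos i with h | h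
        · rw [h]
        · exact (eta_mono hR i 0 h hi).le
      · rcases Nat.lt_or_ge i J with h | h
        · exact (eta_mono hR J i h (le_refl _)).le
        · have : i = J := by omega
          rw [this]
      · exact hR.hx 0 (by omega) _ _ (by omega) (by omega)
      · exact hR.hx J (le_refl _) _ _ (by omega) (by omega)
    linarith
  have hbad : ∀ i < J - 1, ((Bad i).ncard : ℤ) ≤ D i := by
    intro i hi
    have hi2 : i + 2 ≤ J := by omega
    have hRi := rows_shift hR i hi2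
    have h2 : 2 ≤ n (i + 1) := hn2 (i + 1) (by omega)
    have hm := row_mono V hK _ _ _ hRi h2
    obtain ⟨m1, m2⟩ := hm
    refine psi_count (n i) (n (i + 2)) T (n (i + 1)) (hn1 i (by omega)) (hn1 (i + 2) (by omega))
      (F i) ?_ ?_ ?_ ?_ (fun t => l t i) (fun t => r t i) (fun t => l t (i + 2))
      (fun t => r t (i + 2)) ?_ ?_ ?_ ?_ ?_ ?_
    · intro j k hj hk
      have := m1 j k hj hk
      show ((pos (n (i + 1)) (x (i + 1)) (cross η x i j k) : ℕ) : ℤ) + 1 ≤
        ((pos (n (i + 1)) (x (i + 1)) (cross η x i (j + 1) k) : ℕ) : ℤ)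
      have h' : pos (n (i + 1)) (x (i + 1)) (cross η x i j k) + 1 ≤
        pos (n (i + 1)) (x (i + 1)) (cross η x i (j + 1) k) := this
      exact_mod_cast h'
    · intro j k hj hk
      have := m2 j k hj hk
      show ((pos (n (i + 1)) (x (i + 1)) (cross η x i j k) : ℕ) : ℤ) + 1 ≤
        ((pos (n (i + 1)) (x (i + 1)) (cross η x i j (k + 1)) : ℕ) : ℤ)
      have h' : pos (n (i + 1)) (x (i + 1)) (cross η x i j k) + 1 ≤
        pos (n (i + 1)) (x (i + 1)) (cross η x i j (k + 1)) := this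
      exact_mod_cast h'
    · exact Int.natCast_nonneg _
    · have := pos_le (n (i + 1)) (x (i + 1)) (cross η x i (n i - 1) (n (i + 2) - 1))
        (hR.hx (i + 1) (by omega))
      show ((pos (n (i + 1)) (x (i + 1)) (cross η x i (n i - 1) (n (i + 2) - 1)) : ℕ) : ℤ) ≤ _
      exact_mod_cast this
    · intro t ht
      have := (hlr t ht i (by omega)).1
      show l t i ≤ r t i
      omega
    · intro t ht; exact (hlr t ht i (by omega)).2.1
    · intro t ht; exact hsep i (by omega) t ht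
    · intro t ht
      have := (hlr t ht (i + 2) (by omega)).1
      show l t (i + 2) ≤ r t (i + 2)
      omega
    · intro t ht; exact (hlr t ht (i + 2) (by omega)).2.1
    · intro t ht; exact hsep (i + 2) (by omega) t ht
  have hDs : ∑ i ∈ Finset.range (J - 1), D i < T := by
    have hS0 : 0 ≤ ∑ i ∈ Finset.range (J - 1), D i :=
      Finset.sum_nonneg fun i hi =>
        le_trans (Int.natCast_nonneg _) (hbad i (Finset.mem_range.1 hi))
    have h1 : (N : ℤ) ≤ 3 * n 0 := by exact_mod_cast (hN 0 (by omega)).2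
    have h2 : n 0 < (T + 1) * B := by
      rw [hT, mul_comm]
      exact Nat.lt_mul_div_succ _ (by omega)
    have h2' : (n 0 : ℤ) < (T + 1) * B := by exact_mod_cast h2
    have hBp : (0 : ℤ) < B := by exact_mod_cast (by omega : 0 < B)
    have h3 : (B : ℤ) * (10 * (1 + ∑ i ∈ Finset.range (J - 1), D i)) < B * (3 * (T + 1)) := by
      have : 10 * (B : ℤ) * (1 + ∑ i ∈ Finset.range (J - 1), D i) ≤ N := hsl
      nlinarith
    have h4 := lt_of_mul_lt_mul_left h3 hBp.le
    linarith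
  obtain ⟨t, ht, hgood⟩ := exists_good T (J - 1) Bad D (fun i _ t ht => ht.1) hbad hDs
  refine ⟨l t, r t, fun i => F i (l t i) (l t (i + 2)) - l t i - l t (i + 2), ?_, ?_⟩
  · intro i hi
    obtain ⟨a1, a2, -⟩ := hlr t ht i hi
    exact ⟨a1, a2⟩
  · intro i hi j k hj1 hj2 hk1 hk2 m hm
    have hg := hgood i (by omega)
    have hF : F i j k - j - k = F i (l t i) (l t (i + 2)) - l t i - l t (i + 2) := by
      by_contra hne
      exact hg ⟨ht, j, k, hj1, hj2, hk1, hk2, hne⟩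
    have hF' : F i j k = 2 * m + 1 := by linarith
    have hFnn : 0 ≤ F i j k := Int.natCast_nonneg _
    have hm0 : 0 ≤ m := by omega
    obtain ⟨m', rfl⟩ := Int.eq_ofNat_of_zero_le hm0
    have hpos : pos (n (i + 1)) (x (i + 1)) (cross η x i j k) = 2 * m' + 1 := by
      have : ((pos (n (i + 1)) (x (i + 1)) (cross η x i j k) : ℕ) : ℤ) = 2 * (m' : ℤ) + 1 := hF'
      exact_mod_cast this
    obtain ⟨hm1, hm2⟩ := pos_odd (n (i + 1)) (x (i + 1)) _ (hR.hx (i + 1) (by omega)) m' hpos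
    obtain ⟨a1, a2, a3⟩ := hlr t ht i (by omega)
    obtain ⟨b1, b2, b3⟩ := hlr t ht (i + 2) hi
    obtain ⟨c1, c2, c3⟩ := hlr t ht (i + 1) (by omega)
    have ha := (a3 j (by omega)).1 ⟨hj1, hj2⟩
    have hb := (b3 k (by omega)).1 ⟨hk1, hk2⟩
    have hc := (c3 m' hm1).2 (by
      rw [hm2]
      exact ⟨side_le_cross h0J (hR.hη i (by omega)) (hR.hη (i + 1) (by omega)) ha.1 hb.1,
        cross_le_side h0J (hR.hη i (by omega)) (hR.hη (i + 1) (by omega)) ha.2 hb.2⟩)
    exact ⟨m', rfl, hc.1, hc.2, hm2⟩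

end Pool.Agent.helper45.Vis
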